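import Pool.Agent.H.MP_7a18c0_al.Concrete

set_option autoImplicit false

namespace Pool.Agent.Results.MP_7a18c0_al.DefectNineClassTen

/-- `H` is subnormal in `G` of defect at most `n`: there is a chain
`H = f 0 ⊴ f 1 ⊴ ⋯ ⊴ f n = G`. -/
def SubnormalLE {G : Type} [Group G] (n : ℕ) (H : Subgroup G) : Prop :=
  ∃ f : ℕ → Subgroup G, f 0 = H ∧ f n = ⊤ ∧
    ∀ i, i < n → f i ≤ f (i + 1) ∧ ((f i).subgroupOf (f (i + 1))).Normal

open Pool.Agent.H.MP_7a18c0_al Subgroup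
open scoped commutatorElement

section

variable {R₁ R₂ : Type} [Ring R₁] [Ring R₂] (Δ : Data R₁ R₂)

theorem lcs_mem (k : ℕ) : ∀ g ∈ Subgroup.lowerCentralSeries (⊤ : Subgroup Δ.Gh) k,
    (g : R₁ˣ × R₂ˣ).1 ∈ Δ.Φ₁.V (k + 1) ∧ (g : R₁ˣ × R₂ˣ).2 ∈ Δ.Φ₂.V (k + 1) := by
  induction k with
  | zero =>
    intro g _
    exact Δ.mem_UU.1 (Δ.Gh_le_UU g.2)
  | succ k ih =>
    have h : Subgroup.lowerCentralSeries (⊤ : Subgroup Δ.Gh) (k + 1) ≤
        ((Δ.Φ₁.V (k + 1 + 1)).prod (Δ.Φ₂.V (k + 1 + 1))).comap Δ.Gh.subtype := by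
      rw [Subgroup.lowerCentralSeries_succ, commutator_le]
      intro a ha b _
      have h1 := ih a ha
      have h2 := Δ.mem_UU.1 (Δ.Gh_le_UU b.2)
      exact ⟨Δ.Φ₁.comm_mem h1.1 h2.1, Δ.Φ₂.comm_mem h1.2 h2.2⟩
    intro g hg
    exact h hg

theorem lcs_bot : Subgroup.lowerCentralSeries (⊤ : Subgroup Δ.Gh) 10 = ⊥ := by
  rw [eq_bot_iff]
  intro g hg
  have h := lcs_mem Δ 10 g hg
  rw [mem_bot]
  apply Subtype.ext
  refine Prod.ext ?_ ?_
  · exact Δ.Φ₁.eq_one_of_mem_V Δ.h9 (Δ.Φ₁.V_anti (by norm_num) h.1)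
  · exact Δ.Φ₂.eq_one_of_mem_V Δ.h11 h.2

include Δ in
theorem final : ∃ (G : Type) (_ : Group G),
    (∃ x y : G, closure {x, y} = ⊤) ∧
    (∀ g : G, ∀ k : ℕ, 0 < k → g ^ k = 1 → g = 1) ∧
    (∀ H : Subgroup G, SubnormalLE 9 H) ∧
    Subgroup.lowerCentralSeries (⊤ : Subgroup G) 9 ≠ ⊥ ∧
    Subgroup.lowerCentralSeries (⊤ : Subgroup G) 10 = ⊥ := by
  refine ⟨Δ.Gh ⧸ Δ.N, inferInstance, ?_, ?_, ?_, ?_, ?_⟩
  · set π := QuotientGroup.mk' Δ.N with hπ
    have hs : Function.Surjective π := QuotientGroup.mk'_surjective _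
    let x : Δ.Gh := ⟨_, Δ.gen_mem_Gh (1, 0) (Or.inl rfl)⟩
    let y : Δ.Gh := ⟨_, Δ.gen_mem_Gh (0, 1) (Or.inr rfl)⟩
    refine ⟨π x, π y, ?_⟩
    have hK : (closure {π x, π y}).comap π = ⊤ := by
      rw [eq_top_iff]
      have htop : closure (((↑) : Δ.Gh → R₁ˣ × R₂ˣ) ⁻¹' Δ.gens) = ⊤ :=
        closure_closure_coe_preimage
      rw [← htop, closure_le]
      rintro ⟨g, hg⟩ hg'
      have hg'' : g ∈ Δ.gens := hg'
      rcases hg'' with rfl | rfl | rfl
      · exact subset_closure (Or.inl rfl)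
      · exact subset_closure (Or.inr rfl)
      · have h1 : π ⟨_, Δ.zz_mem_Gh⟩ = 1 := by
          rw [hπ, QuotientGroup.mk'_apply, QuotientGroup.eq_one_iff, Data.mem_N]
          exact ⟨1, rfl⟩
        change π ⟨_, Δ.zz_mem_Gh⟩ ∈ closure {π x, π y}
        rw [h1]
        exact one_mem _
    rw [eq_top_iff]
    intro g _
    obtain ⟨g, rfl⟩ := hs g
    have : g ∈ (closure {π x, π y}).comap π := by rw [hK]; trivial
    exact this
  · intro g k hk h
    induction g using QuotientGroup.induction_on with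
    | H g =>
      rw [← QuotientGroup.mk_pow, QuotientGroup.eq_one_iff, Data.mem_N] at h
      obtain ⟨c, hc⟩ := h
      obtain ⟨s, hs⟩ := Δ.root (Δ.Gh_le_UU g.2) hk (c := c) (by rw [hc]; simp)
      rw [QuotientGroup.eq_one_iff, Data.mem_N]
      exact ⟨s, hs.symm⟩
  · intro H
    apply chain_of_itc
    set π := QuotientGroup.mk' Δ.N with hπ
    have hs : Function.Surjective π := QuotientGroup.mk'_surjective _
    set K := H.comap π with hK
    have h1 : itc (⊤ : Subgroup Δ.Gh) K 9 ≤ K := by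
      have h2 : K.map Δ.Gh.subtype ≤ Δ.Gh := by
        rintro x ⟨y, _, rfl⟩
        exact y.2
      have h3 : Δ.zz 1 (-1) ∈ K.map Δ.Gh.subtype := by
        refine ⟨⟨_, Δ.zz_mem_Gh⟩, ?_, rfl⟩
        change π _ ∈ H
        have : π ⟨_, Δ.zz_mem_Gh⟩ = 1 := by
          rw [hπ, QuotientGroup.mk'_apply, QuotientGroup.eq_one_iff, Data.mem_N]
          exact ⟨1, rfl⟩
        rw [this]
        exact one_mem _
      have h4 := Δ.key h2 h3
      rw [← map_subtype_le_map_subtype, map_itc]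
      have h5 : (⊤ : Subgroup Δ.Gh).map Δ.Gh.subtype = Δ.Gh := by
        rw [← MonoidHom.range_eq_map, range_subtype]
      rw [h5]
      exact h4
    have h6 := Subgroup.map_mono (f := π) h1
    rw [map_itc, map_top_of_surjective _ hs, map_comap_eq_self_of_surjective hs] at h6
    exact h6
  · intro hbot
    have htop := Subgroup.lowerCentralSeries_eq_bot_iff_upperCentralSeries_eq_top.1 hbot
    have hx : Δ.gen (1, 0) ∈ Δ.Gh := Δ.gen_mem_Gh _ (Or.inl rfl)
    have hy : Δ.gen (0, 1) ∈ Δ.Gh := Δ.gen_mem_Gh _ (Or.inr rfl)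
    let x : Δ.Gh := ⟨_, hx⟩
    let y : Δ.Gh := ⟨_, hy⟩
    let w : List Δ.Gh := [y, x, x, x, x, y, y, y, y]
    set π := QuotientGroup.mk' Δ.N with hπ
    have h1 : lcm (π x) (w.map π) ∈ Subgroup.upperCentralSeries (Δ.Gh ⧸ Δ.N) 0 := by
      apply lcm_mem_ucs
      have : (0 + (w.map π).length) = 9 := rfl
      rw [this, htop]
      exact mem_top _
    rw [Subgroup.upperCentralSeries_zero, mem_bot, ← map_lcm, hπ, QuotientGroup.mk'_apply,
      QuotientGroup.eq_one_iff, Data.mem_N] at h1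
    obtain ⟨k, hk⟩ := h1
    have h2 : ((lcm x w : Δ.Gh) : R₁ˣ × R₂ˣ) = Δ.c10 := by
      have := map_lcm Δ.Gh.subtype w x
      rw [coe_subtype] at this
      rw [this]
      rfl
    rw [h2] at hk
    have h3 : (Δ.zz k (-k)).1 = 1 := by rw [hk]; exact Δ.c10_fst
    have h4 : k = 0 := by
      apply Δ.hE₁0
      have h5 : ((Δ.zz k (-k)).1 : R₁) = 1 := by rw [h3]; rfl
      rw [Data.zz_fst] at h5
      simpa using h5
    subst h4
    apply Δ.c10_snd
    rw [← hk]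
    apply Units.ext
    rw [Data.zz_snd]
    simp
  · have hs : Function.Surjective (QuotientGroup.mk' Δ.N) := QuotientGroup.mk'_surjective _
    rw [← map_top_of_surjective _ hs, ← map_lowerCentralSeries, lcs_bot, Subgroup.map_bot]

end

/-- **A torsion-free group of class exactly `10` all of whose subgroups are subnormal of defect at
most `9`.** -/
theorem result : ∃ (G : Type) (_ : Group G),
    (∃ x y : G, Subgroup.closure {x, y} = ⊤) ∧
    (∀ g : G, ∀ k : ℕ, 0 < k → g ^ k = 1 → g = 1) ∧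
    (∀ H : Subgroup G, SubnormalLE 9 H) ∧
    Subgroup.lowerCentralSeries (⊤ : Subgroup G) 9 ≠ ⊥ ∧
    Subgroup.lowerCentralSeries (⊤ : Subgroup G) 10 = ⊥ :=
  final theData

end Pool.Agent.Results.MP_7a18c0_al.DefectNineClassTen
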